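import Pool.Agent.Helper63_DPB.Sel

/-!
Squad DPB, module BLK: block sequences.
-/

set_option linter.unusedVariables false

open Filter Topology Set

namespace Pool.Agent.Helper83_DPB.H63

/-- the jump at the root -/
noncomputable def kap (s : Sym) : LI Pt →L[ℂ] ℂ := LU (qF ([] ++ [s])) - LU (pF [])

theorem kap_AA {s : Sym} (hs : isBlk s) {a : LI Pt} (ha : a ∈ AA) : kap s a = 0 := by
  have h := ha.2 (([], ⟨s, hs⟩) : PrI)
  have h' : LU (pF []) a = LU (qF ([] ++ [s])) a := h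
  show LU (qF ([] ++ [s])) a - LU (pF []) a = 0
  rw [h', sub_self]

theorem kap_norm (s : Sym) (x : LI Pt) : ‖kap s x‖ ≤ 2 * ‖x‖ := by
  show ‖LU (qF ([] ++ [s])) x - LU (pF []) x‖ ≤ _
  have h1 := LU_norm (qF ([] ++ [s])) x
  have h2 := LU_norm (pF []) x
  have h3 := norm_sub_le (LU (qF ([] ++ [s])) x) (LU (pF []) x)
  linarith

theorem htL_nil : htL [] = 0 := rfl

theorem adm_single (n : ℕ) : adm 0 (Finsupp.single n 1) := by
  refine ⟨fun _ _ => Nat.zero_le _, ?_, fun k => ?_⟩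
  · rw [Finsupp.support_single n (one_ne_zero)]
    simp
  · rw [Finsupp.single_apply]
    split_ifs
    · norm_num
    · norm_num

theorem kap1 (hjmp : JmpStmt) (n : ℕ) (v : VV) :
    kap (Sym.l2 (Finsupp.single n 1) 0) (UU v) = v.1 n := by
  have h := hjmp [] (Sym.l2 (Finsupp.single n 1) 0) trivial v
  show LU (qF ([] ++ [Sym.l2 (Finsupp.single n 1) 0])) (UU v) - LU (pF []) (UU v) = _
  rw [h, htL_nil]
  unfold prg
  have h1 : ∀ k, cf1 0 (Sym.l2 (Finsupp.single n 1) 0) k = if k = n then 1 else 0 := by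
    intro k
    unfold cf1
    simp only
    rw [if_pos (adm_single n), Finsupp.single_apply]
    split_ifs with h2 h3 h3
    · norm_num
    · exact absurd h2.symm h3
    · exact absurd h3.symm h2
    · norm_num
  have h2 : ∀ k, cf2 0 (Sym.l2 (Finsupp.single n 1) 0) k = 0 := fun k => rfl
  simp only [h1, h2, mul_zero, mul_ite, mul_one, Finsupp.sum]
  rw [Finset.sum_const_zero, add_zero, Finset.sum_ite_eq']
  split_ifs with h3
  · rfl
  · exact (Finsupp.notMem_support_iff.1 h3).symm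

theorem kap2 (hjmp : JmpStmt) (n : ℕ) (v : VV) :
    kap (Sym.c0 n 0) (UU v) = v.2 n := by
  have h := hjmp [] (Sym.c0 n 0) trivial v
  show LU (qF ([] ++ [Sym.c0 n 0])) (UU v) - LU (pF []) (UU v) = _
  rw [h, htL_nil]
  unfold prg
  have h1 : ∀ k, cf2 0 (Sym.c0 n 0) k = if k = n then 1 else 0 := by
    intro k
    unfold cf2
    simp only [Nat.zero_le, and_true]
    split_ifs with h2 h3 h3
    · rfl
    · exact absurd h2.symm h3
    · exact absurd h3.symm h2
    · rfl
  have h2 : ∀ k, cf1 0 (Sym.c0 n 0) k = 0 := fun k => rfl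
  simp only [h1, h2, mul_zero, mul_ite, mul_one, Finsupp.sum]
  rw [Finset.sum_const_zero, zero_add, Finset.sum_ite_eq']
  split_ifs with h3
  · rfl
  · exact (Finsupp.notMem_support_iff.1 h3).symm

theorem U1_norm (hub : UbStmt) (n : ℕ) : ‖U1 n‖ ≤ 1 :=
  lp.norm_le_of_forall_le zero_le_one fun x => hub.1 n x

theorem U2_norm (hub : UbStmt) (n : ℕ) : ‖U2 n‖ ≤ 1 :=
  lp.norm_le_of_forall_le zero_le_one fun x => hub.2.1 n x

open scoped Classical in
/-- delete the coordinates below `m` -/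
noncomputable def cutV (m : ℕ) (v : VV) : VV :=
  (v.1.filter fun n => m ≤ n, v.2.filter fun n => m ≤ n)

theorem sum_filter_sub {E : Type} [NormedAddCommGroup E] [NormedSpace ℂ E] (U : ℕ → E)
    (hU : ∀ n, ‖U n‖ ≤ 1) (v : ℕ →₀ ℂ) (m : ℕ) (c : ℝ) (hc : 0 ≤ c) (hv : ∀ n < m, ‖v n‖ ≤ c)
    (v' : ℕ →₀ ℂ) (h1 : ∀ n, m ≤ n → v' n = v n) (h0 : ∀ n, n < m → v' n = 0) :
    ‖(v.sum fun n a => a • U n) - (v'.sum fun n a => a • U n)‖ ≤ m * c := by
  classical
  have e1 : (v.sum fun n a => a • U n) - (v'.sum fun n a => a • U n)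
      = ∑ n ∈ Finset.range m, v n • U n := by
    obtain ⟨M, hM⟩ : ∃ M, ∀ n, (v n ≠ 0 ∨ v' n ≠ 0) ∨ n < m → n < M := by
      refine ⟨max m ((v.support ∪ v'.support).sup id + 1), fun n hn => ?_⟩
      rcases hn with hn | hn
      · have h2 : n ∈ v.support ∪ v'.support := by
          rw [Finset.mem_union, Finsupp.mem_support_iff, Finsupp.mem_support_iff]
          exact hn
        have h3 := Finset.le_sup (f := id) h2
        have h4 : n ≤ (v.support ∪ v'.support).sup id := h3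
        omega
      · omega
    have e2 : ∀ u : ℕ →₀ ℂ, (∀ n, u n ≠ 0 → n < M) →
        (u.sum fun n a => a • U n) = ∑ n ∈ Finset.range M, u n • U n := by
      intro u hu
      rw [Finsupp.sum]
      refine Finset.sum_subset (fun n hn => ?_) (fun n _ hn => ?_)
      · exact Finset.mem_range.2 (hu n (Finsupp.mem_support_iff.1 hn))
      · rw [Finsupp.notMem_support_iff.1 hn, zero_smul]
    rw [e2 v fun n hn => hM n (Or.inl (Or.inl hn)), e2 v' fun n hn => hM n (Or.inl (Or.inr hn)),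
      ← Finset.sum_sub_distrib]
    symm
    have hmM : Finset.range m ⊆ Finset.range M := fun n hn =>
      Finset.mem_range.2 (hM n (Or.inr (Finset.mem_range.1 hn)))
    rw [← Finset.sum_subset hmM (f := fun n => v n • U n - v' n • U n)]
    · refine Finset.sum_congr rfl fun n hn => ?_
      rw [h0 n (Finset.mem_range.1 hn), zero_smul, sub_zero]
    · intro n _ hn
      rw [Finset.mem_range, not_lt] at hn
      rw [h1 n hn, sub_self]
  rw [e1]
  refine (norm_sum_le _ _).trans ?_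
  have e3 : ∀ n ∈ Finset.range m, ‖v n • U n‖ ≤ c := by
    intro n hn
    rw [norm_smul]
    calc ‖v n‖ * ‖U n‖ ≤ c * 1 :=
          mul_le_mul (hv n (Finset.mem_range.1 hn)) (hU n) (norm_nonneg _) hc
      _ = c := mul_one _
  refine (Finset.sum_le_sum e3).trans ?_
  rw [Finset.sum_const, Finset.card_range, nsmul_eq_mul]

theorem blk_step (hxm : XmStmt) (hjmp : JmpStmt) (hub : UbStmt) (Z : Submodule ℂ XX)
    (hZ : ¬ FiniteDimensional ℂ Z) (ε : ℝ) (hε : 0 < ε) (m : ℕ) :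
    ∃ (w : XX) (v : VV) (a : LI Pt) (m' : ℕ), m < m' ∧ w ∈ Z ∧ ‖w‖ = 1 ∧ a ∈ AA ∧
      SupIn v m m' ∧ ‖(w : LI Pt) - a - UU v‖ ≤ ε := by
  classical
  obtain ⟨Z', h1, h2, h3⟩ := inf_ker Z hZ
    ((Finset.range m).image (fun n => (kap (Sym.l2 (Finsupp.single n 1) 0)).comp XX.subtypeL) ∪
      (Finset.range m).image (fun n => (kap (Sym.c0 n 0)).comp XX.subtypeL))
  have h4 : Z' ≠ ⊥ := by
    rintro rfl
    exact h2 inferInstance
  obtain ⟨w₀, hw₀, hne⟩ := Submodule.exists_mem_ne_zero_of_ne_bot h4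
  obtain ⟨w, hw⟩ : ∃ w : XX, w = ((‖w₀‖ : ℂ)⁻¹) • w₀ := ⟨_, rfl⟩
  have hwZ : w ∈ Z' := by
    rw [hw]
    exact Z'.smul_mem _ hw₀
  have hw1 : ‖w‖ = 1 := by
    rw [hw, norm_smul, norm_inv, Complex.norm_real, norm_norm, inv_mul_cancel₀]
    exact norm_ne_zero_iff.2 hne
  have hk1 : ∀ n < m, kap (Sym.l2 (Finsupp.single n 1) 0) (w : LI Pt) = 0 := fun n hn =>
    h3 w hwZ _ (Finset.mem_union_left _ (Finset.mem_image.2 ⟨n, Finset.mem_range.2 hn, rfl⟩))
  have hk2 : ∀ n < m, kap (Sym.c0 n 0) (w : LI Pt) = 0 := fun n hn =>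
    h3 w hwZ _ (Finset.mem_union_right _ (Finset.mem_image.2 ⟨n, Finset.mem_range.2 hn, rfl⟩))
  obtain ⟨e, he, hee⟩ : ∃ e : ℝ, 0 < e ∧ e * (1 + 4 * m) ≤ ε :=
    ⟨ε / (1 + 4 * m), by positivity, by
      rw [div_mul_cancel₀]
      positivity⟩
  obtain ⟨v, a, ha, hva⟩ := hxm.2.2 w w.2 e he
  have hv1 : ∀ n < m, ‖v.1 n‖ ≤ 2 * e := by
    intro n hn
    have e1 : kap (Sym.l2 (Finsupp.single n 1) 0) ((w : LI Pt) - a - UU v) = -v.1 n := by
      rw [map_sub, map_sub, hk1 n hn,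
        kap_AA (s := Sym.l2 (Finsupp.single n 1) 0) trivial ha, kap1 hjmp]
      ring
    have e2 := kap_norm (Sym.l2 (Finsupp.single n 1) 0) ((w : LI Pt) - a - UU v)
    rw [e1, norm_neg] at e2
    linarith
  have hv2 : ∀ n < m, ‖v.2 n‖ ≤ 2 * e := by
    intro n hn
    have e1 : kap (Sym.c0 n 0) ((w : LI Pt) - a - UU v) = -v.2 n := by
      rw [map_sub, map_sub, hk2 n hn, kap_AA (s := Sym.c0 n 0) trivial ha, kap2 hjmp]
      ring
    have e2 := kap_norm (Sym.c0 n 0) ((w : LI Pt) - a - UU v)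
    rw [e1, norm_neg] at e2
    linarith
  have hc1 : ∀ n, m ≤ n → (cutV m v).1 n = v.1 n := fun n hn => Finsupp.filter_apply_pos _ _ hn
  have hc10 : ∀ n, n < m → (cutV m v).1 n = 0 := fun n hn =>
    Finsupp.filter_apply_neg _ _ (not_le.2 hn)
  have hc2 : ∀ n, m ≤ n → (cutV m v).2 n = v.2 n := fun n hn => Finsupp.filter_apply_pos _ _ hn
  have hc20 : ∀ n, n < m → (cutV m v).2 n = 0 := fun n hn =>
    Finsupp.filter_apply_neg _ _ (not_le.2 hn)
  have hUU : ‖UU v - UU (cutV m v)‖ ≤ m * (2 * e) + m * (2 * e) := by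
    have e3 : UU v - UU (cutV m v)
        = ((v.1.sum fun n a => a • U1 n) - ((cutV m v).1.sum fun n a => a • U1 n))
          + ((v.2.sum fun n a => a • U2 n) - ((cutV m v).2.sum fun n a => a • U2 n)) := by
      unfold UU
      abel
    rw [e3]
    exact (norm_add_le _ _).trans (add_le_add
      (sum_filter_sub U1 (U1_norm hub) v.1 m (2 * e) (by positivity) hv1 _ hc1 hc10)
      (sum_filter_sub U2 (U2_norm hub) v.2 m (2 * e) (by positivity) hv2 _ hc2 hc20))
  refine ⟨w, cutV m v, a, max (m + 1) ((((cutV m v).1.support ∪ (cutV m v).2.support).sup id) + 1),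
    by omega, h1 hwZ, hw1, ha, ⟨fun n hn => ?_, fun n hn => ?_⟩, ?_⟩
  · refine ⟨?_, ?_⟩
    · by_contra h5
      exact hn (hc10 n (not_le.1 h5))
    · have h5 : n ∈ (cutV m v).1.support ∪ (cutV m v).2.support :=
        Finset.mem_union_left _ (Finsupp.mem_support_iff.2 hn)
      have h6 : n ≤ ((cutV m v).1.support ∪ (cutV m v).2.support).sup id :=
        Finset.le_sup (f := id) h5
      omega
  · refine ⟨?_, ?_⟩
    · by_contra h5
      exact hn (hc20 n (not_le.1 h5))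
    · have h5 : n ∈ (cutV m v).1.support ∪ (cutV m v).2.support :=
        Finset.mem_union_right _ (Finsupp.mem_support_iff.2 hn)
      have h6 : n ≤ ((cutV m v).1.support ∪ (cutV m v).2.support).sup id :=
        Finset.le_sup (f := id) h5
      omega
  · have e4 : (w : LI Pt) - a - UU (cutV m v)
        = ((w : LI Pt) - a - UU v) + (UU v - UU (cutV m v)) := by abel
    rw [e4]
    have e5 := norm_add_le ((w : LI Pt) - a - UU v) (UU v - UU (cutV m v))
    linarith

/-- MODULE BLK -/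
theorem blk (hxm : XmStmt) (hjmp : JmpStmt) (hub : UbStmt) : BlkStmt := by
  intro Z hZ η hη
  choose w v a m' hm hw hw1 ha hv he using fun (j : ℕ) (m : ℕ) =>
    blk_step hxm hjmp hub Z hZ (η * (1 / 2) ^ j) (by positivity) m
  let m : ℕ → ℕ := fun j => Nat.rec 0 (fun j m => m' j m) j
  have hms : ∀ j, m (j + 1) = m' j (m j) := fun j => rfl
  refine ⟨fun j => w j (m j), fun j => v j (m j), fun j => a j (m j), m, ?_, fun j => hw _ _,
    fun j => hw1 _ _, fun j => ha _ _, fun j => ?_, fun j => he _ _⟩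
  · refine strictMono_nat_of_lt_succ fun j => ?_
    rw [hms]
    exact hm j (m j)
  · rw [hms]
    exact hv j (m j)

end Pool.Agent.Helper83_DPB.H63
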