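import Pool.Agent.Helper83_DPB.Stmts

/-!
Squad DPB, module DIM: dimension bound.
-/

set_option linter.unusedVariables false

open Filter Topology Set

namespace Pool.Agent.Helper83_DPB.H63

section alg

variable {Ω : Type} {B : Set (Set Ω)}

theorem alg_univ (hB : IsAlg B) : (univ : Set Ω) ∈ B := by
  rw [← compl_empty]
  exact hB.compl _ hB.empty

theorem alg_inter (hB : IsAlg B) {b c : Set Ω} (hb : b ∈ B) (hc : c ∈ B) : b ∩ c ∈ B := by
  have : b ∩ c = (bᶜ ∪ cᶜ)ᶜ := by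
    rw [compl_union, compl_compl, compl_compl]
  rw [this]
  exact hB.compl _ (hB.union _ (hB.compl _ hb) _ (hB.compl _ hc))

theorem alg_iInter (hB : IsAlg B) {ι : Type} [Finite ι] {b : ι → Set Ω} (hb : ∀ i, b i ∈ B) :
    (⋂ i, b i) ∈ B := by
  classical
  have := Fintype.ofFinite ι
  have h1 : ∀ s : Finset ι, (⋂ i ∈ s, b i) ∈ B := by
    intro s
    induction s using Finset.induction_on with
    | empty =>
      have : (⋂ i ∈ (∅ : Finset ι), b i) = univ := by simp
      rw [this]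
      exact alg_univ hB
    | insert a s _ ih =>
      rw [Finset.set_biInter_insert]
      exact alg_inter hB (hb a) ih
  have h2 := h1 Finset.univ
  simpa using h2

theorem chg_empty (hB : IsAlg B) {v : Set Ω → ℝ} (hv : IsChg B v) : v ∅ = 0 := by
  have h := hv.add ∅ hB.empty ∅ hB.empty (disjoint_bot_left)
  rw [union_self] at h
  linarith

theorem chg_biUnion (hB : IsAlg B) {v : Set Ω → ℝ} (hv : IsChg B v) {ι : Type} {b : ι → Set Ω}
    (hb : ∀ i, b i ∈ B) (hd : ∀ i j, i ≠ j → Disjoint (b i) (b j)) (s : Finset ι) :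
    (⋃ i ∈ s, b i) ∈ B ∧ v (⋃ i ∈ s, b i) = ∑ i ∈ s, v (b i) := by
  classical
  induction s using Finset.induction_on with
  | empty =>
    have : (⋃ i ∈ (∅ : Finset ι), b i) = ∅ := by simp
    rw [this, chg_empty hB hv]
    exact ⟨hB.empty, by simp⟩
  | insert a s ha ih =>
    rw [Finset.set_biUnion_insert, Finset.sum_insert ha]
    refine ⟨hB.union _ (hb a) _ ih.1, ?_⟩
    rw [hv.add _ (hb a) _ ih.1, ih.2]
    rw [Set.disjoint_iUnion₂_right]
    intro i hi
    exact hd a i (by rintro rfl; exact ha hi)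

end alg

/-- MODULE DIM -/
theorem dim (hfdl : FdlStmt) : DimStmt := by
  intro Ω A _ _ S m τ δ κ N w hm hτ0 hτ1 hδ hκ hw hb
  classical
  have hu := alg_univ S.alg
  -- approximation
  have hε : 0 < κ * τ / (4 * (N + 1)) := by positivity
  choose n p z hp hz using fun i : Fin N => S.approx (w i) (κ * τ / (4 * (N + 1))) hε
  let P : Ω → (∀ i : Fin N, Fin (n i)) := fun t i => p i t
  have hP : ∀ c, P ⁻¹' {c} ∈ S.B := by
    intro c
    have : P ⁻¹' {c} = ⋂ i, p i ⁻¹' {c i} := by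
      ext t
      simp only [mem_preimage, mem_singleton_iff, mem_iInter]
      exact funext_iff
    rw [this]
    exact alg_iInter S.alg fun i => hp i (c i)
  have hPd : ∀ c c', c ≠ c' → Disjoint (P ⁻¹' {c}) (P ⁻¹' {c'}) := by
    intro c c' h
    rw [Set.disjoint_left]
    intro t ht ht'
    exact h (Eq.trans (Eq.symm ht) ht')
  let wh : Fin N → (∀ i : Fin N, Fin (n i)) → ℂ := fun i c =>
    if (P ⁻¹' {c}).Nonempty then z i (c i) else 0
  have hwh : ∀ i t, wh i (P t) = z i (p i t) := by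
    intro i t
    show (if (P ⁻¹' {P t}).Nonempty then z i (P t i) else 0) = _
    rw [if_pos ⟨t, rfl⟩]
  have hev : ∀ (a : Fin N → ℂ) (t : Ω), S.ev (∑ j, a j • w j) t = ∑ j, a j * S.ev (w j) t := by
    intro a t
    rw [map_sum, Finset.sum_apply]
    refine Finset.sum_congr rfl fun j _ => ?_
    rw [map_smul, Pi.smul_apply, smul_eq_mul]
  have hsum : ∀ (a : Fin N → ℂ) (c : ∀ i : Fin N, Fin (n i)),
      (∑ i, a i • wh i) c = ∑ i, a i * wh i c := by
    intro a c
    rw [Finset.sum_apply]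
    exact Finset.sum_congr rfl fun j _ => rfl
  have hclose : ∀ a : Fin N → ℂ, ‖∑ j, a j • w j‖ = 1 → ∀ t,
      ‖S.ev (∑ j, a j • w j) t - (∑ i, a i • wh i) (P t)‖ ≤ τ / 4 := by
    intro a ha t
    rw [hev, hsum, ← Finset.sum_sub_distrib]
    have h1 : ∀ j ∈ Finset.univ, ‖a j * S.ev (w j) t - a j * wh j (P t)‖ ≤ τ / (4 * (N + 1)) := by
      intro j _
      rw [← mul_sub, norm_mul, hwh]
      have h2 := hw a j
      rw [ha] at h2
      have h3 : ‖a j‖ ≤ 1 / κ := by
        rw [le_div_iff₀ hκ, mul_comm]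
        exact h2
      calc ‖a j‖ * ‖S.ev (w j) t - z j (p j t)‖ ≤ 1 / κ * (κ * τ / (4 * (N + 1))) :=
            mul_le_mul h3 (hz j t) (norm_nonneg _) (by positivity)
        _ = τ / (4 * (N + 1)) := by field_simp
    refine (norm_sum_le _ _).trans ((Finset.sum_le_sum h1).trans ?_)
    rw [Finset.sum_const, Finset.card_univ, Fintype.card_fin, nsmul_eq_mul]
    have h4 : (N : ℝ) * (τ / (4 * (N + 1))) = N / (N + 1) * (τ / 4) := by field_simp
    rw [h4]
    have h5 : (N : ℝ) / (N + 1) ≤ 1 := by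
      rw [div_le_one (by positivity)]
      linarith
    calc (N : ℝ) / (N + 1) * (τ / 4) ≤ 1 * (τ / 4) :=
          mul_le_mul_of_nonneg_right h5 (by positivity)
      _ = τ / 4 := one_mul _
  -- the two estimates for normalized vectors
  have hsup : ∀ a : Fin N → ℂ, ‖∑ j, a j • w j‖ = 1 → ∀ c, ‖(∑ i, a i • wh i) c‖ ≤ 5 / 4 := by
    intro a ha c
    by_cases hc : (P ⁻¹' {c}).Nonempty
    · obtain ⟨t, ht⟩ := hc
      have ht' : P t = c := ht
      have h1 := hclose a ha t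
      rw [ht'] at h1
      have h2 := S.ev_le (∑ j, a j • w j) t
      rw [ha] at h2
      have h3 : ‖(∑ i, a i • wh i) c‖ ≤ ‖S.ev (∑ j, a j • w j) t‖
          + ‖S.ev (∑ j, a j • w j) t - (∑ i, a i • wh i) c‖ := by
        have : (∑ i, a i • wh i) c = S.ev (∑ j, a j • w j) t
            - (S.ev (∑ j, a j • w j) t - (∑ i, a i • wh i) c) := by ring
        calc ‖(∑ i, a i • wh i) c‖ = ‖S.ev (∑ j, a j • w j) t
            - (S.ev (∑ j, a j • w j) t - (∑ i, a i • wh i) c)‖ := by rw [← this]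
          _ ≤ _ := norm_sub_le _ _
      linarith
    · rw [hsum, Finset.sum_eq_zero, norm_zero]
      · norm_num
      · intro i _
        show a i * (if (P ⁻¹' {c}).Nonempty then z i (c i) else 0) = 0
        rw [if_neg hc, mul_zero]
  have hint : ∀ a : Fin N → ℂ, ‖∑ j, a j • w j‖ = 1 →
      9 / 16 * τ ^ 2 * δ ≤ ∑ c, m (P ⁻¹' {c}) * ‖(∑ i, a i • wh i) c‖ ^ 2 := by
    intro a ha
    let s : Finset (∀ i : Fin N, Fin (n i)) :=
      Finset.univ.filter fun c => 3 / 4 * τ ≤ ‖(∑ i, a i • wh i) c‖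
    obtain ⟨h1, h2⟩ := chg_biUnion S.alg hm hP hPd s
    have h3 : δ ≤ m (⋃ c ∈ s, P ⁻¹' {c}) := by
      refine hb a ha _ h1 fun t ht => ?_
      have ht' : τ ≤ ‖S.ev (∑ j, a j • w j) t‖ := ht
      rw [mem_iUnion₂]
      refine ⟨P t, ?_, rfl⟩
      refine Finset.mem_filter.2 ⟨Finset.mem_univ _, ?_⟩
      have h4 := hclose a ha t
      have h5 : ‖S.ev (∑ j, a j • w j) t‖ ≤ ‖(∑ i, a i • wh i) (P t)‖
          + ‖S.ev (∑ j, a j • w j) t - (∑ i, a i • wh i) (P t)‖ := by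
        have : S.ev (∑ j, a j • w j) t = (∑ i, a i • wh i) (P t)
            + (S.ev (∑ j, a j • w j) t - (∑ i, a i • wh i) (P t)) := by ring
        calc ‖S.ev (∑ j, a j • w j) t‖ = ‖(∑ i, a i • wh i) (P t)
            + (S.ev (∑ j, a j • w j) t - (∑ i, a i • wh i) (P t))‖ := by rw [← this]
          _ ≤ _ := norm_add_le _ _
      linarith
    rw [h2] at h3
    have h6 : ∀ c, 0 ≤ m (P ⁻¹' {c}) := fun c => hm.nonneg _ (hP c)
    calc 9 / 16 * τ ^ 2 * δ ≤ 9 / 16 * τ ^ 2 * ∑ c ∈ s, m (P ⁻¹' {c}) :=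
          mul_le_mul_of_nonneg_left h3 (by positivity)
      _ = ∑ c ∈ s, m (P ⁻¹' {c}) * (3 / 4 * τ) ^ 2 := by
          rw [Finset.mul_sum]
          exact Finset.sum_congr rfl fun c _ => by ring
      _ ≤ ∑ c ∈ s, m (P ⁻¹' {c}) * ‖(∑ i, a i • wh i) c‖ ^ 2 := by
          refine Finset.sum_le_sum fun c hc => mul_le_mul_of_nonneg_left ?_ (h6 c)
          exact pow_le_pow_left₀ (by positivity) (Finset.mem_filter.1 hc).2 2
      _ ≤ ∑ c, m (P ⁻¹' {c}) * ‖(∑ i, a i • wh i) c‖ ^ 2 := by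
          refine Finset.sum_le_sum_of_subset_of_nonneg (Finset.subset_univ _) fun c _ _ => ?_
          exact mul_nonneg (h6 c) (by positivity)
  -- scaling
  have hscale : ∀ a : Fin N → ℂ, a ≠ 0 → ∃ (r : ℝ) (a' : Fin N → ℂ), 0 < r ∧
      ‖∑ j, a' j • w j‖ = 1 ∧ ∀ c, (∑ i, a i • wh i) c = (r : ℂ) * (∑ i, a' i • wh i) c := by
    intro a ha
    obtain ⟨i, hi⟩ := Function.ne_iff.1 ha
    have h1 : 0 < ‖∑ j, a j • w j‖ := by
      refine lt_of_lt_of_le ?_ (hw a i)
      exact mul_pos hκ (norm_pos_iff.2 hi)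
    obtain ⟨r, hr⟩ : ∃ r, r = ‖∑ j, a j • w j‖ := ⟨_, rfl⟩
    rw [← hr] at h1
    have hr0 : (r : ℂ) ≠ 0 := by exact_mod_cast h1.ne'
    refine ⟨r, fun j => (r : ℂ)⁻¹ * a j, h1, ?_, fun c => ?_⟩
    · have h2 : ∑ j, ((r : ℂ)⁻¹ * a j) • w j = (r : ℂ)⁻¹ • ∑ j, a j • w j := by
        rw [Finset.smul_sum]
        exact Finset.sum_congr rfl fun j _ => mul_smul _ _ _
      rw [h2, norm_smul, ← hr, norm_inv, Complex.norm_real, Real.norm_of_nonneg h1.le,
        inv_mul_cancel₀ h1.ne']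
    · rw [hsum, hsum, Finset.mul_sum]
      refine Finset.sum_congr rfl fun j _ => ?_
      rw [← mul_assoc, ← mul_assoc, mul_inv_cancel₀ hr0, one_mul]
  -- linear independence
  have hli : LinearIndependent ℂ wh := by
    rw [Fintype.linearIndependent_iff]
    intro a ha
    by_contra hne
    have ha0 : a ≠ 0 := by
      rintro rfl
      exact hne fun i => rfl
    obtain ⟨r, a', hr, ha', hc⟩ := hscale a ha0
    have h1 := hint a' ha'
    have hr0 : (r : ℂ) ≠ 0 := by exact_mod_cast hr.ne'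
    have h2 : ∀ c, (∑ i, a' i • wh i) c = 0 := by
      intro c
      have h3 := hc c
      rw [ha] at h3
      have h4 : (r : ℂ) * (∑ i, a' i • wh i) c = 0 := h3.symm
      exact (mul_eq_zero.1 h4).resolve_left hr0
    simp only [h2, norm_zero] at h1
    rw [Finset.sum_eq_zero (fun c _ => by ring)] at h1
    have : 0 < 9 / 16 * τ ^ 2 * δ := by positivity
    linarith
  -- conclusion
  have hK : (0 : ℝ) ≤ 25 / (9 * τ ^ 2 * δ) := by positivity
  have h1 := hfdl (∀ i : Fin N, Fin (n i)) (fun c => m (P ⁻¹' {c})) (25 / (9 * τ ^ 2 * δ)) N wh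
    (fun c => hm.nonneg _ (hP c)) hK hli (fun a c => by
      by_cases ha : a = 0
      · subst ha
        have h2 : ∀ c, (∑ i, (0 : Fin N → ℂ) i • wh i) c = 0 := by
          intro c
          rw [hsum]
          exact Finset.sum_eq_zero fun i _ => zero_mul _
        simp only [h2, norm_zero]
        rw [Finset.sum_eq_zero (fun c _ => by ring)]
        norm_num
      · obtain ⟨r, a', hr, ha', hc⟩ := hscale a ha
        have e1 := hsup a' ha' c
        have e2 := hint a' ha'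
        have e3 : ∀ c, ‖(∑ i, a i • wh i) c‖ ^ 2 = r ^ 2 * ‖(∑ i, a' i • wh i) c‖ ^ 2 := by
          intro c
          rw [hc c, norm_mul, Complex.norm_real, Real.norm_of_nonneg hr.le]
          ring
        have e4 : ∑ k, m (P ⁻¹' {k}) * ‖(∑ i, a i • wh i) k‖ ^ 2
            = r ^ 2 * ∑ k, m (P ⁻¹' {k}) * ‖(∑ i, a' i • wh i) k‖ ^ 2 := by
          rw [Finset.mul_sum]
          refine Finset.sum_congr rfl fun k _ => ?_
          rw [e3]
          ring
        rw [e4, e3]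
        have e5 : ‖(∑ i, a' i • wh i) c‖ ^ 2 ≤ (5 / 4) ^ 2 :=
          pow_le_pow_left₀ (norm_nonneg _) e1 2
        have e6 : 25 / (9 * τ ^ 2 * δ) * (9 / 16 * τ ^ 2 * δ) = (5 / 4) ^ 2 := by
          field_simp
          norm_num
        have e7 : (5 / 4 : ℝ) ^ 2 ≤ 25 / (9 * τ ^ 2 * δ)
            * ∑ k, m (P ⁻¹' {k}) * ‖(∑ i, a' i • wh i) k‖ ^ 2 := by
          rw [← e6]
          exact mul_le_mul_of_nonneg_left e2 hK
        calc r ^ 2 * ‖(∑ i, a' i • wh i) c‖ ^ 2 ≤ r ^ 2 * (25 / (9 * τ ^ 2 * δ)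
            * ∑ k, m (P ⁻¹' {k}) * ‖(∑ i, a' i • wh i) k‖ ^ 2) :=
              mul_le_mul_of_nonneg_left (e5.trans e7) (by positivity)
          _ = _ := by ring)
  have h2 := (chg_biUnion S.alg hm hP hPd Finset.univ).2
  have h3 : (⋃ c ∈ (Finset.univ : Finset (∀ i : Fin N, Fin (n i))), P ⁻¹' {c}) = univ := by
    ext t
    simp
  rw [h3] at h2
  rw [h2]
  exact h1

end Pool.Agent.Helper83_DPB.H63
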