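import Pool.Agent.Helper83_DPB.Stmts

/-!
Squad DPB, module OM: an operator which is large on finite dimensional subspaces is large on a
disjoint sequence.
-/

set_option linter.unusedVariables false

open Filter Topology Set

namespace Pool.Agent.Helper83_DPB.H63

/-- MODULE OM -/
theorem om (hdom : DomStmt) (hdim : DimStmt) (hvar : VarStmt) : OmStmt := by
  intro Ω A X _ _ _ _ S J R C hC hw
  by_contra hcon
  obtain ⟨v1, v2, v3, v4, v5, v6, v7⟩ := hvar Ω A S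
  -- the functionals
  have hfn : ∀ h : X →L[ℂ] ℂ, ‖h‖ ≤ 1 → ‖h.comp (R.comp J.toContinuousLinearMap)‖ ≤ ‖R‖ := by
    intro h hh
    refine ContinuousLinearMap.opNorm_le_bound _ (norm_nonneg _) fun a => ?_
    show ‖h (R (J a))‖ ≤ ‖R‖ * ‖a‖
    calc ‖h (R (J a))‖ ≤ ‖h‖ * ‖R (J a)‖ := h.le_opNorm _
      _ ≤ 1 * (‖R‖ * ‖J a‖) :=
        mul_le_mul hh (R.le_opNorm _) (norm_nonneg _) zero_le_one
      _ = ‖R‖ * ‖a‖ := by rw [one_mul, J.norm_map]
  let G : Set (Set Ω → ℝ) :=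
    {v | ∃ h : X →L[ℂ] ℂ, ‖h‖ ≤ 1 ∧ v = vr S (h.comp (R.comp J.toContinuousLinearMap))}
  obtain ⟨m, δ, hm, hδ, hmδ⟩ := hdom Ω S.B S.alg G ‖R‖ (C / 3) (by positivity)
    (by
      rintro v ⟨h, hh, rfl⟩
      exact v1 _)
    (by
      rintro v ⟨h, hh, rfl⟩
      rw [v4]
      exact hfn h hh)
    (by
      rintro ⟨v, c, hv, hc, hdis, he⟩
      choose h hh hvh using hv
      have h1 : ∀ k, ∃ y : A, ‖y‖ ≤ 1 ∧ (∀ t ∉ c k, S.ev y t = 0) ∧
          C / 4 < ‖(h k).comp (R.comp J.toContinuousLinearMap) y‖ := by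
        intro k
        refine v7 _ _ _ ?_
        rw [← hvh k]
        have := he k
        linarith
      choose y hy1 hy2 hy3 using h1
      refine hcon ⟨c, y, ⟨hc, hdis, hy1, hy2⟩, fun n => ?_⟩
      have h2 : ‖(h n).comp (R.comp J.toContinuousLinearMap) (y n)‖ ≤ ‖R (J (y n))‖ := by
        show ‖(h n) (R (J (y n)))‖ ≤ _
        calc ‖(h n) (R (J (y n)))‖ ≤ ‖h n‖ * ‖R (J (y n))‖ := (h n).le_opNorm _
          _ ≤ 1 * ‖R (J (y n))‖ := mul_le_mul_of_nonneg_right (hh n) (norm_nonneg _)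
          _ = _ := one_mul _
      exact ((hy3 n).trans_le h2).le)
  -- the threshold
  obtain ⟨τ, hτ0, hτ1, hτR⟩ : ∃ τ : ℝ, 0 < τ ∧ τ ≤ 1 ∧ ‖R‖ * τ < C / 3 := by
    refine ⟨min 1 (C / (4 * (‖R‖ + 1))), lt_min one_pos (by positivity), min_le_left _ _, ?_⟩
    calc ‖R‖ * min 1 (C / (4 * (‖R‖ + 1))) ≤ (‖R‖ + 1) * (C / (4 * (‖R‖ + 1))) :=
          mul_le_mul (by linarith) (min_le_right _ _)
            (le_of_lt (lt_min one_pos (by positivity))) (by positivity)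
      _ = C / 4 := by field_simp
      _ < C / 3 := by linarith
  have hbound : ∀ N : ℕ, (N : ℝ) ≤ 25 / (9 * τ ^ 2 * δ) * m univ := by
    intro N
    obtain ⟨w, κ, hκ, h1, h2⟩ := hw N
    refine hdim Ω A S m τ δ κ N w hm hτ0 hτ1 hδ hκ h1 ?_
    intro a ha b hb hsub
    by_contra hlt
    rw [not_le] at hlt
    obtain ⟨y, hy⟩ : ∃ y, y = ∑ j, a j • w j := ⟨_, rfl⟩
    have h3 := h2 a
    rw [← hy] at ha hsub h3
    rw [ha, mul_one] at h3
    obtain ⟨h, hh, hhy⟩ := exists_dual_vector'' ℂ (R (J y))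
    obtain ⟨yb, hyb⟩ := S.cut_ex b hb y
    have e1 : ‖yb‖ ≤ 1 := by
      refine S.le_ev yb 1 zero_le_one fun t => ?_
      rw [hyb]
      by_cases ht : t ∈ b
      · rw [Set.indicator_of_mem ht, ← ha]
        exact S.ev_le y t
      · rw [Set.indicator_of_notMem ht, norm_zero]
        exact zero_le_one
    have e2 : ‖y - yb‖ ≤ τ := by
      refine S.le_ev _ τ hτ0.le fun t => ?_
      rw [map_sub, Pi.sub_apply, hyb]
      by_cases ht : t ∈ b
      · rw [Set.indicator_of_mem ht, sub_self, norm_zero]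
        exact hτ0.le
      · rw [Set.indicator_of_notMem ht, sub_zero]
        by_contra h4
        rw [not_le] at h4
        exact ht (hsub h4.le)
    obtain ⟨f, hf⟩ : ∃ f, f = h.comp (R.comp J.toContinuousLinearMap) := ⟨_, rfl⟩
    have e3 : ‖f yb‖ < 2 * (C / 3) := by
      have h4 := v2 f b yb (fun t ht => by rw [hyb, Set.indicator_of_notMem ht])
      have h5 : vr S f b < 2 * (C / 3) := hmδ b hb hlt _ ⟨h, hh, by rw [hf]⟩
      have h6 : 0 ≤ vr S f b := (v1 f).nonneg b hb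
      calc ‖f yb‖ ≤ vr S f b * ‖yb‖ := h4
        _ ≤ vr S f b * 1 := mul_le_mul_of_nonneg_left e1 h6
        _ = vr S f b := mul_one _
        _ < _ := h5
    have e4 : ‖f (y - yb)‖ < C / 3 := by
      have h7 : ‖f‖ ≤ ‖R‖ := by
        rw [hf]
        exact hfn h hh
      calc ‖f (y - yb)‖ ≤ ‖f‖ * ‖y - yb‖ := f.le_opNorm _
        _ ≤ ‖R‖ * τ := mul_le_mul h7 e2 (norm_nonneg _) (norm_nonneg _)
        _ < _ := hτR
    have e5 : ‖f y‖ = ‖R (J y)‖ := by
      rw [hf]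
      show ‖h (R (J y))‖ = _
      rw [hhy]
      simp
    have e6 : ‖f y‖ ≤ ‖f yb‖ + ‖f (y - yb)‖ := by
      have : f y = f yb + f (y - yb) := by
        rw [← map_add, add_sub_cancel]
      rw [this]
      exact norm_add_le _ _
    linarith
  obtain ⟨N, hN⟩ := exists_nat_gt (25 / (9 * τ ^ 2 * δ) * m univ)
  exact absurd (hbound N) (not_le.2 hN)

end Pool.Agent.Helper83_DPB.H63
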