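import Pool.Agent.Helper83_DPB.Stmts

/-!
Squad DPB, module SEL: selection of finite dimensional subspaces.
-/

set_option linter.unusedVariables false

open Filter Topology Set

namespace Pool.Agent.Helper83_DPB.H63

section tri

variable {X : Type} [NormedAddCommGroup X] [NormedSpace ℂ X]

/-- triangular systems are well conditioned -/
theorem tri_bound {z : ℕ → X} {g : ℕ → (X →L[ℂ] ℂ)} (hz : ∀ n, ‖z n‖ ≤ 1) (hg : ∀ n, ‖g n‖ ≤ 1)
    (h1 : ∀ n, g n (z n) = 1) (h0 : ∀ j n, j < n → g j (z n) = 0) (a : ℕ → ℂ) (N : ℕ) :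
    ∀ n < N, ‖a n‖ ≤ 2 ^ n * ‖∑ j ∈ Finset.range N, a j • z j‖ := by
  intro n
  induction n using Nat.strong_induction_on with
  | _ n ih =>
    intro hn
    have e1 : g n (∑ j ∈ Finset.range N, a j • z j)
        = a n + ∑ j ∈ Finset.range n, a j * g n (z j) := by
      rw [map_sum]
      have e2 : ∀ j, g n (a j • z j) = a j * g n (z j) := fun j => by
        rw [map_smul, smul_eq_mul]
      simp only [e2]
      have e3 : ∑ j ∈ Finset.range N, a j * g n (z j)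
          = ∑ j ∈ Finset.range (n + 1), a j * g n (z j) := by
        symm
        refine Finset.sum_subset (Finset.range_mono hn) fun j _ hj => ?_
        rw [Finset.mem_range, not_lt] at hj
        rw [h0 n j (by omega), mul_zero]
      rw [e3, Finset.sum_range_succ, h1 n, mul_one, add_comm]
    have e4 : ‖a n‖ ≤ ‖g n (∑ j ∈ Finset.range N, a j • z j)‖
        + ‖∑ j ∈ Finset.range n, a j * g n (z j)‖ := by
      have : a n = g n (∑ j ∈ Finset.range N, a j • z j)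
          - ∑ j ∈ Finset.range n, a j * g n (z j) := by
        rw [e1]
        ring
      calc ‖a n‖ = ‖g n (∑ j ∈ Finset.range N, a j • z j)
            - ∑ j ∈ Finset.range n, a j * g n (z j)‖ := by rw [← this]
        _ ≤ _ := norm_sub_le _ _
    have e5 : ‖g n (∑ j ∈ Finset.range N, a j • z j)‖ ≤ ‖∑ j ∈ Finset.range N, a j • z j‖ := by
      refine ((g n).le_opNorm _).trans ?_
      calc ‖g n‖ * ‖∑ j ∈ Finset.range N, a j • z j‖
          ≤ 1 * ‖∑ j ∈ Finset.range N, a j • z j‖ :=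
            mul_le_mul_of_nonneg_right (hg n) (norm_nonneg _)
        _ = _ := one_mul _
    have e6 : ‖∑ j ∈ Finset.range n, a j * g n (z j)‖
        ≤ ∑ j ∈ Finset.range n, 2 ^ j * ‖∑ j ∈ Finset.range N, a j • z j‖ := by
      refine (norm_sum_le _ _).trans (Finset.sum_le_sum fun j hj => ?_)
      rw [Finset.mem_range] at hj
      have e7 : ‖g n (z j)‖ ≤ 1 := by
        refine ((g n).le_opNorm _).trans ?_
        calc ‖g n‖ * ‖z j‖ ≤ 1 * 1 := mul_le_mul (hg n) (hz j) (norm_nonneg _) zero_le_one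
          _ = 1 := one_mul _
      rw [norm_mul]
      calc ‖a j‖ * ‖g n (z j)‖ ≤ ‖a j‖ * 1 := mul_le_mul_of_nonneg_left e7 (norm_nonneg _)
        _ = ‖a j‖ := mul_one _
        _ ≤ _ := ih j hj (hj.trans hn)
    have e8 : ∑ j ∈ Finset.range n, (2 : ℝ) ^ j * ‖∑ j ∈ Finset.range N, a j • z j‖
        = (2 ^ n - 1) * ‖∑ j ∈ Finset.range N, a j • z j‖ := by
      rw [← Finset.sum_mul, geom_sum_eq (by norm_num)]
      norm_num
    rw [e8] at e6
    linarith

/-- construction of triangular systems -/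
theorem exists_tri (Q : ℕ → X → Prop)
    (hQ : ∀ (G : Finset (X →L[ℂ] ℂ)) (n : ℕ), ∃ w : X, ‖w‖ = 1 ∧ (∀ g ∈ G, g w = 0) ∧ Q n w) :
    ∃ (z : ℕ → X) (g : ℕ → (X →L[ℂ] ℂ)), (∀ n, ‖z n‖ = 1) ∧ (∀ n, ‖g n‖ ≤ 1) ∧
      (∀ n, g n (z n) = 1) ∧ (∀ j n, j < n → g j (z n) = 0) ∧ ∀ n, Q n (z n) := by
  classical
  have h1 : ∀ (G : Finset (X →L[ℂ] ℂ)) (n : ℕ), ∃ p : X × (X →L[ℂ] ℂ), ‖p.1‖ = 1 ∧ ‖p.2‖ ≤ 1 ∧
      p.2 p.1 = 1 ∧ (∀ g ∈ G, g p.1 = 0) ∧ Q n p.1 := by
    intro G n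
    obtain ⟨w, hw, hG, hq⟩ := hQ G n
    have hw0 : ‖w‖ ≠ 0 := by
      rw [hw]
      exact one_ne_zero
    obtain ⟨g, hg, hgw⟩ := exists_dual_vector ℂ w hw0
    refine ⟨(w, g), hw, hg.le, ?_, hG, hq⟩
    show g w = 1
    rw [hgw, hw]
    simp
  choose p hp1 hp2 hp3 hp4 hp5 using h1
  let G : ℕ → Finset (X →L[ℂ] ℂ) := fun n => Nat.rec ∅ (fun n G => insert (p G n).2 G) n
  have hGs : ∀ n, G (n + 1) = insert (p (G n) n).2 (G n) := fun n => rfl
  have hG : ∀ n j, j < n → (p (G j) j).2 ∈ G n := by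
    intro n
    induction n with
    | zero => intro j hj; omega
    | succ n ih =>
      intro j hj
      rw [hGs]
      rcases Nat.lt_succ_iff_lt_or_eq.1 hj with h | h
      · exact Finset.mem_insert_of_mem (ih j h)
      · rw [h]
        exact Finset.mem_insert_self _ _
  exact ⟨fun n => (p (G n) n).1, fun n => (p (G n) n).2, fun n => hp1 _ _, fun n => hp2 _ _,
    fun n => hp3 _ _, fun j n hj => hp4 _ _ _ (hG n j hj), fun n => hp5 _ _⟩

theorem inf_ker (Z : Submodule ℂ X) (hZ : ¬ FiniteDimensional ℂ Z) (G : Finset (X →L[ℂ] ℂ)) :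
    ∃ Z' : Submodule ℂ X, Z' ≤ Z ∧ ¬ FiniteDimensional ℂ Z' ∧ ∀ z ∈ Z', ∀ g ∈ G, g z = 0 := by
  classical
  induction G using Finset.induction_on with
  | empty => exact ⟨Z, le_rfl, hZ, fun z _ g hg => absurd hg (Finset.notMem_empty g)⟩
  | insert g G hg ih =>
    obtain ⟨Z', h1, h2, h3⟩ := ih
    refine ⟨Z' ⊓ LinearMap.ker (g : X →ₗ[ℂ] ℂ), inf_le_left.trans h1, fun hf => h2 ?_, ?_⟩
    · by_cases hz : ∃ z ∈ Z', g z ≠ 0
      · obtain ⟨z₀, hz₀, hg₀⟩ := hz
        have h4 : Z' ≤ (Z' ⊓ LinearMap.ker (g : X →ₗ[ℂ] ℂ)) ⊔ Submodule.span ℂ {z₀} := by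
          intro z hz
          rw [Submodule.mem_sup]
          refine ⟨z - (g z / g z₀) • z₀, ⟨Z'.sub_mem hz (Z'.smul_mem _ hz₀), ?_⟩,
            (g z / g z₀) • z₀, Submodule.smul_mem _ _ (Submodule.mem_span_singleton_self z₀), ?_⟩
          · show g (z - (g z / g z₀) • z₀) = 0
            rw [map_sub, map_smul, smul_eq_mul, div_mul_cancel₀ _ hg₀, sub_self]
          · rw [sub_add_cancel]
        have h5 : FiniteDimensional ℂ
            ((Z' ⊓ LinearMap.ker (g : X →ₗ[ℂ] ℂ)) ⊔ Submodule.span ℂ {z₀} : Submodule ℂ X) :=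
          Submodule.finiteDimensional_sup _ _
        exact Submodule.finiteDimensional_of_le h4
      · push Not at hz
        have h4 : Z' ⊓ LinearMap.ker (g : X →ₗ[ℂ] ℂ) = Z' := by
          refine inf_eq_left.2 fun z hz' => ?_
          exact hz z hz'
        rw [h4] at hf
        exact hf
    · intro z hz g' hg'
      rcases Finset.mem_insert.1 hg' with rfl | hg'
      · exact hz.2
      · exact h3 z hz.1 g' hg'

end tri

/-- MODULE SEL -/
theorem sel : SelStmt := by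
  intro A X _ _ _ _ J T hJ hT N ε hε
  -- an infinite dimensional subspace on which T is small
  obtain ⟨x, g, hx, hg, hgx, hgx0, hTx⟩ := exists_tri (X := X)
    (fun n w => ‖T w‖ ≤ ε / 8 * (1 / 4) ^ (n + 1)) (fun G n => by
      obtain ⟨w, h1, h2, h3⟩ := hT G (ε / 8 * (1 / 4) ^ (n + 1)) (by positivity)
      exact ⟨w, h1, h2, h3.le⟩)
  have hb := fun a N => tri_bound (fun n => (hx n).le) hg hgx hgx0 a N
  have hTs : ∀ (a : ℕ → ℂ) (M : ℕ), ‖T (∑ j ∈ Finset.range M, a j • x j)‖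
      ≤ ε / 8 * ‖∑ j ∈ Finset.range M, a j • x j‖ := by
    intro a M
    rw [map_sum]
    refine (norm_sum_le _ _).trans ?_
    have h1 : ∀ j ∈ Finset.range M, ‖T (a j • x j)‖
        ≤ (ε / 8 * ‖∑ j ∈ Finset.range M, a j • x j‖) * (1 / 2) ^ (j + 1) := by
      intro j hj
      rw [map_smul, norm_smul]
      have h2 := hb a M j (Finset.mem_range.1 hj)
      have h3 := hTx j
      calc ‖a j‖ * ‖T (x j)‖
          ≤ (2 ^ j * ‖∑ j ∈ Finset.range M, a j • x j‖) * (ε / 8 * (1 / 4) ^ (j + 1)) :=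
            mul_le_mul h2 h3 (norm_nonneg _) (by positivity)
        _ = (ε / 8 * ‖∑ j ∈ Finset.range M, a j • x j‖) * (2 ^ j * (1 / 4) ^ (j + 1)) := by ring
        _ ≤ (ε / 8 * ‖∑ j ∈ Finset.range M, a j • x j‖) * (1 / 2) ^ (j + 1) := by
            refine mul_le_mul_of_nonneg_left ?_ (by positivity)
            have h4 : (2 : ℝ) ^ j * (1 / 4) ^ (j + 1) = (1 / 2) ^ (j + 1) * (1 / 2) := by
              rw [show (1 / 4 : ℝ) = (1 / 2) * (1 / 2) by norm_num, mul_pow, pow_succ (1 / 2 : ℝ) j]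
              have h5 : (2 : ℝ) ^ j * (1 / 2) ^ j = 1 := by
                rw [← mul_pow]
                norm_num
              linear_combination ((1 / 2) * ((1 / 2) ^ j * (1 / 2))) * h5
            rw [h4]
            have h6 : (0 : ℝ) < (1 / 2) ^ (j + 1) := by positivity
            linarith
    refine (Finset.sum_le_sum h1).trans ?_
    rw [← Finset.mul_sum]
    have h2 : ∑ j ∈ Finset.range M, (1 / 2 : ℝ) ^ (j + 1) ≤ 1 := by
      have h3 : ∀ M : ℕ, ∑ j ∈ Finset.range M, (1 / 2 : ℝ) ^ (j + 1) = 1 - (1 / 2) ^ M := by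
        intro M
        induction M with
        | zero => simp
        | succ M ih =>
          rw [Finset.sum_range_succ, ih, pow_succ]
          ring
      rw [h3]
      have : (0 : ℝ) < (1 / 2) ^ M := by positivity
      linarith
    calc ε / 8 * ‖∑ j ∈ Finset.range M, a j • x j‖ * ∑ j ∈ Finset.range M, (1 / 2 : ℝ) ^ (j + 1)
        ≤ ε / 8 * ‖∑ j ∈ Finset.range M, a j • x j‖ * 1 :=
          mul_le_mul_of_nonneg_left h2 (by positivity)
      _ = _ := mul_one _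
  -- the subspace
  have hTZ : ∀ z ∈ Submodule.span ℂ (Set.range x), ‖T z‖ ≤ ε / 8 * ‖z‖ := by
    intro z hz
    rw [Finsupp.mem_span_range_iff_exists_finsupp] at hz
    obtain ⟨c, rfl⟩ := hz
    have h1 : (c.sum fun i a => a • x i)
        = ∑ j ∈ Finset.range (c.support.sup id + 1), c j • x j := by
      rw [Finsupp.sum]
      refine Finset.sum_subset (fun j hj => ?_) (fun j _ hj => ?_)
      · rw [Finset.mem_range]
        have := Finset.le_sup (f := id) hj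
        exact Nat.lt_succ_of_le this
      · rw [Finsupp.notMem_support_iff.1 hj, zero_smul]
    rw [h1]
    exact hTs _ _
  have hli : LinearIndependent ℂ x := by
    rw [linearIndependent_iff']
    intro s c hc j hj
    let a : ℕ → ℂ := fun i => if i ∈ s then c i else 0
    have h1 : ∑ i ∈ Finset.range (s.sup id + 1), a i • x i = 0 := by
      rw [← hc]
      have h0 : ∑ i ∈ s, a i • x i = ∑ i ∈ Finset.range (s.sup id + 1), a i • x i := by
        refine Finset.sum_subset (fun i hi => ?_) (fun i _ hi => ?_)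
        · rw [Finset.mem_range]
          have := Finset.le_sup (f := id) hi
          exact Nat.lt_succ_of_le this
        · show (if i ∈ s then c i else 0) • x i = 0
          rw [if_neg hi, zero_smul]
      rw [← h0]
      refine Finset.sum_congr rfl fun i hi => ?_
      show (if i ∈ s then c i else 0) • x i = _
      rw [if_pos hi]
    have h2 := hb a (s.sup id + 1) j (by
      have := Finset.le_sup (f := id) hj
      exact Nat.lt_succ_of_le this)
    rw [h1, norm_zero, mul_zero] at h2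
    have h3 : a j = c j := if_pos hj
    rw [h3] at h2
    exact norm_le_zero_iff.1 h2
  have hZ : ¬ FiniteDimensional ℂ (Submodule.span ℂ (Set.range x)) := by
    intro hf
    have h1 := linearIndependent_span hli
    have h2 : Finite ℕ := h1.finite
    exact not_finite ℕ
  -- the second selection
  obtain ⟨ρ, hρ, hρ1, hρ2⟩ : ∃ ρ : ℝ, 0 < ρ ∧ ρ * (N * 2 ^ N) ≤ 1 / 2 ∧
      ‖T‖ * (ρ * (N * 2 ^ N)) ≤ ε / 4 := by
    refine ⟨min (1 / (2 * (N * 2 ^ N + 1))) (ε / (4 * ((‖T‖ + 1) * (N * 2 ^ N + 1)))),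
      lt_min (by positivity) (by positivity), ?_, ?_⟩
    · calc min (1 / (2 * ((N : ℝ) * 2 ^ N + 1))) (ε / (4 * ((‖T‖ + 1) * (N * 2 ^ N + 1))))
            * (N * 2 ^ N) ≤ 1 / (2 * ((N : ℝ) * 2 ^ N + 1)) * (N * 2 ^ N + 1) := by
            refine mul_le_mul (min_le_left _ _) (by linarith) (by positivity) (by positivity)
        _ = 1 / 2 := by
            field_simp
    · calc ‖T‖ * (min (1 / (2 * ((N : ℝ) * 2 ^ N + 1))) (ε / (4 * ((‖T‖ + 1) * (N * 2 ^ N + 1))))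
            * (N * 2 ^ N)) ≤ (‖T‖ + 1) * (ε / (4 * ((‖T‖ + 1) * (N * 2 ^ N + 1)))
            * (N * 2 ^ N + 1)) := by
            refine mul_le_mul (by linarith) ?_ ?_ (by positivity)
            · refine mul_le_mul (min_le_right _ _) (by linarith) (by positivity) (by positivity)
            · refine mul_nonneg (le_of_lt (lt_min (by positivity) (by positivity))) (by positivity)
        _ = ε / 4 := by
            field_simp
  obtain ⟨z, g', hz, hg', hgz, hgz0, hzQ⟩ := exists_tri (X := X)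
    (fun n w => w ∈ Submodule.span ℂ (Set.range x) ∧ ∃ a : A, ‖w - J a‖ < ρ) (fun G n => by
      obtain ⟨Z', h1, h2, h3⟩ := inf_ker _ hZ G
      obtain ⟨w, hw, hw1, a, ha⟩ := hJ Z' h2 ρ hρ
      exact ⟨w, hw1, fun g hg => h3 w hw g hg, h1 hw, a, ha⟩)
  choose hzZ w hw using hzQ
  have hb' := fun a N => tri_bound (fun n => (hz n).le) hg' hgz hgz0 a N
  refine ⟨fun i => w i, (1 / 2) ^ (N + 1), by positivity, ?_⟩
  -- estimates
  have key : ∀ a : Fin N → ℂ, ∃ Zv : X, Zv ∈ Submodule.span ℂ (Set.range x) ∧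
      (∀ i, ‖a i‖ ≤ 2 ^ N * ‖Zv‖) ∧ ‖J (∑ j, a j • w j) - Zv‖ ≤ ρ * (N * 2 ^ N) * ‖Zv‖ := by
    intro a
    let b : ℕ → ℂ := fun i => if h : i < N then a ⟨i, h⟩ else 0
    have hb1 : ∀ i : Fin N, b i = a i := fun i => by
      show (if h : (i : ℕ) < N then a ⟨i, h⟩ else 0) = a i
      rw [dif_pos i.2]
    have hb2 : ∀ i : Fin N, ‖a i‖ ≤ 2 ^ N * ‖∑ j ∈ Finset.range N, b j • z j‖ := by
      intro i
      have h1 := hb' b N i i.2
      rw [hb1] at h1
      refine h1.trans (mul_le_mul_of_nonneg_right ?_ (norm_nonneg _))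
      exact pow_le_pow_right₀ (by norm_num) i.2.le
    refine ⟨∑ j ∈ Finset.range N, b j • z j, Submodule.sum_mem _ fun j _ =>
      Submodule.smul_mem _ _ (hzZ j), hb2, ?_⟩
    have h1 : J (∑ j, a j • w j) - ∑ j ∈ Finset.range N, b j • z j
        = ∑ j : Fin N, a j • (J (w j) - z j) := by
      rw [← Fin.sum_univ_eq_sum_range (fun j => b j • z j) N, map_sum, ← Finset.sum_sub_distrib]
      refine Finset.sum_congr rfl fun j _ => ?_
      rw [map_smul, hb1, smul_sub]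
    rw [h1]
    calc ‖∑ j : Fin N, a j • (J (w j) - z j)‖ ≤ ∑ j : Fin N, ‖a j • (J (w j) - z j)‖ :=
          norm_sum_le _ _
      _ ≤ ∑ j : Fin N, (2 ^ N * ‖∑ j ∈ Finset.range N, b j • z j‖) * ρ := by
          refine Finset.sum_le_sum fun j _ => ?_
          rw [norm_smul]
          refine mul_le_mul (hb2 j) ?_ (norm_nonneg _) (by positivity)
          rw [norm_sub_rev]
          exact (hw j).le
      _ = ρ * (N * 2 ^ N) * ‖∑ j ∈ Finset.range N, b j • z j‖ := by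
          rw [Finset.sum_const, Finset.card_univ, Fintype.card_fin, nsmul_eq_mul]
          ring
  have key2 : ∀ a : Fin N → ℂ, ∃ Zv : X, Zv ∈ Submodule.span ℂ (Set.range x) ∧
      (∀ i, ‖a i‖ ≤ 2 ^ N * ‖Zv‖) ∧ ‖J (∑ j, a j • w j) - Zv‖ ≤ ρ * (N * 2 ^ N) * ‖Zv‖ ∧
      ‖Zv‖ ≤ 2 * ‖∑ j, a j • w j‖ := by
    intro a
    obtain ⟨Zv, h1, h2, h3⟩ := key a
    refine ⟨Zv, h1, h2, h3, ?_⟩
    have h4 : ‖J (∑ j, a j • w j)‖ = ‖∑ j, a j • w j‖ := J.norm_map _
    have h5 : ‖Zv‖ ≤ ‖J (∑ j, a j • w j)‖ + ‖J (∑ j, a j • w j) - Zv‖ := by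
      have : Zv = J (∑ j, a j • w j) - (J (∑ j, a j • w j) - Zv) := by abel
      calc ‖Zv‖ = ‖J (∑ j, a j • w j) - (J (∑ j, a j • w j) - Zv)‖ := by rw [← this]
        _ ≤ _ := norm_sub_le _ _
    have h6 : ρ * (N * 2 ^ N) * ‖Zv‖ ≤ 1 / 2 * ‖Zv‖ :=
      mul_le_mul_of_nonneg_right hρ1 (norm_nonneg _)
    rw [h4] at h5
    linarith
  refine ⟨fun a i => ?_, fun a => ?_⟩
  · obtain ⟨Zv, h1, h2, h3, h4⟩ := key2 a
    have h5 : (1 / 2 : ℝ) ^ (N + 1) * ‖a i‖ ≤ (1 / 2) ^ (N + 1) * (2 ^ N * ‖Zv‖) :=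
      mul_le_mul_of_nonneg_left (h2 i) (by positivity)
    have h6 : (1 / 2 : ℝ) ^ (N + 1) * (2 ^ N * ‖Zv‖) = 1 / 2 * ‖Zv‖ := by
      have h7 : (1 / 2 : ℝ) ^ N * 2 ^ N = 1 := by
        rw [← mul_pow]
        norm_num
      rw [pow_succ]
      linear_combination (1 / 2 * ‖Zv‖) * h7
    linarith
  · obtain ⟨Zv, h1, h2, h3, h4⟩ := key2 a
    have h5 := hTZ Zv h1
    have h6 : ‖T (J (∑ j, a j • w j))‖ ≤ ‖T Zv‖ + ‖T (J (∑ j, a j • w j) - Zv)‖ := by
      have : T (J (∑ j, a j • w j)) = T Zv + T (J (∑ j, a j • w j) - Zv) := by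
        rw [← map_add]
        congr 1
        abel
      rw [this]
      exact norm_add_le _ _
    have h7 : ‖T (J (∑ j, a j • w j) - Zv)‖ ≤ ε / 4 * ‖Zv‖ := by
      refine (T.le_opNorm _).trans ?_
      calc ‖T‖ * ‖J (∑ j, a j • w j) - Zv‖ ≤ ‖T‖ * (ρ * (N * 2 ^ N) * ‖Zv‖) :=
            mul_le_mul_of_nonneg_left h3 (norm_nonneg _)
        _ = (‖T‖ * (ρ * (N * 2 ^ N))) * ‖Zv‖ := by ring
        _ ≤ ε / 4 * ‖Zv‖ := mul_le_mul_of_nonneg_right hρ2 (norm_nonneg _)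
    have h8 : (ε / 8 + ε / 4) * ‖Zv‖ ≤ (ε / 8 + ε / 4) * (2 * ‖∑ j, a j • w j‖) :=
      mul_le_mul_of_nonneg_left h4 (by positivity)
    have h9 : 0 ≤ ε * ‖∑ j, a j • w j‖ := by positivity
    calc ‖T (J (∑ j, a j • w j))‖ ≤ (ε / 8 + ε / 4) * ‖Zv‖ := by linarith
      _ ≤ (ε / 8 + ε / 4) * (2 * ‖∑ j, a j • w j‖) := h8
      _ ≤ ε * ‖∑ j, a j • w j‖ := by linarith

end Pool.Agent.Helper83_DPB.H63
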